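import Pool.Agent.W_7d29a1_HM.FinalK
import Pool.Agent.W_7d29a1_HK20.RangeK20

/-!
# The KPZ relation for directed polymers in dimension `1 + 1` under a force

The definitions are in `Pool/Agent/W_7d29a1_h47/Model.lean`, `Pool/Agent/W_7d29a1_h47q/ModelQ.lean` and
`Pool/Agent/W_7d29a1_HM/ModelH.lean`: walks of length `n` are step sequences `s : Fin n → Bool` of simple random walk on `ℤ`,
`walk s i` is the position `S_i`, `energy η s` is `∑_{i=1}^n η (i, S_i)`; for a force `h`, `fZ β h η n` is the partition function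
`Z_n(h) = E exp (h S_n + β ∑_{i=1}^n η (i, S_i))`, `fE β h η n` the expectation and `fP β h η n` the probability under the polymer
measure with the force `h` (the polymer measure of the problem tilted by `e ^ (h S_n)`), `endMGF β h η n` the moment generating
function `E_n e ^ (h S_n)`, `mxv v s` the maximum `max_{i ≤ n} |S_i - v i|`; `nuF P β h v ω` and `chiF P β h ω` are the exponents
`ν` and `χ` of the problem (dimension `1`) for the polymer measure with the force `h`, the path `S_i - v i` and `log Z_n(h)`; for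
`h = v = 0` they are `ν` and `χ`.
-/

namespace Pool.Agent.Results.MP_7d29a1_pr.KPZRelation

open MeasureTheory ProbabilityTheory Filter Topology
open Pool.Agent.W_7d29a1_h47 (walk endMGF)
open Pool.Agent.W_7d29a1_HM

/-- **The KPZ relation `w ^ 2 ~ n σ` (`χ = 2 ν - 1` at every scale) for a dense set of forces.** For every i.i.d. site disorder
on `ℕ × ℤ` which is not almost surely constant and has all exponential moments, and for every `β > 0`, let `λ` be the free
energy under a force, `σ_n(h)` the standard deviation of `log Z_n(h)`, and `v = λ'(h)` the velocity; the velocities fill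
`(-1, 1)`. There is a dense set of forces `h` at which `λ` is quadratic (`λ(h + r) - λ(h) - r v` is of the order `r ^ 2`,
`|r| ≤ 1`), and at which the path fluctuates around the line of velocity `v` exactly at the scale `√(n σ_n)`: the second moments
of `|S_n - n v|` and of `max |S_i - i v|` are of the order `n σ_n`, all moments are of the order of the power of `√(n σ_n)`, the
tails are stretched exponential, the end point is spread; and `n ^ (1 / 5 + c) ≤ σ_n ≤ n ^ (1 / 2 - c)`. So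
`2 ν_h - 1 = limsup log σ_n / log n`, `χ_h = liminf log σ_n / log n`, `1 / 5 < χ_h ≤ 2 ν_h - 1 < 1 / 2` and `3 / 5 < ν_h < 3 / 4`.
For Lebesgue almost every force the upper half holds: `E max |S_i - i v| ^ 2 ≤ C n σ_n`, `2 ν_h - 1 ≤ limsup log σ_n / log n`,
`1 / 5 < χ_h`, `ν_h < 3 / 4`; for almost every velocity in `(-1, 1)` the lower half: `E |S_n - n v| ^ 2 ≥ c n σ_n`,
`χ_h ≤ 2 ν_h - 1`, `3 / 5 < ν_h`. (The force `h = 0` of the problem need not be in the dense set.) -/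
theorem result {Ω : Type*} [MeasurableSpace Ω] (P : Measure Ω) [IsProbabilityMeasure P]
    (ω : ℕ × ℤ → Ω → ℝ) (hmeas : ∀ p, Measurable (ω p)) (hindep : iIndepFun ω P)
    (hident : ∀ p q, IdentDistrib (ω p) (ω q) P P) (hnc : ¬ ∃ c : ℝ, ∀ᵐ x ∂P, ω (0, 0) x = c)
    (hexp : ∀ b : ℝ, Integrable (fun x => Real.exp (b * ω (0, 0) x)) P) {β : ℝ} (hβ : 0 < β) :
    ∃ (lam : ℝ → ℝ) (σ : ℝ → ℕ → ℝ), Differentiable ℝ lam ∧ Set.range (deriv lam) = Set.Ioo (-1) 1 ∧
      (∀ h, ∀ᵐ x ∂P, Tendsto (fun n : ℕ => Real.log (endMGF β h (fun p => ω p x) n) / n) atTop (𝓝 (lam h))) ∧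
      (∀ h n, σ h n = Real.sqrt (Var[fun x => Real.log (fZ β h (fun p => ω p x) n); P])) ∧
      -- a dense set of forces
      (∃ T : Set ℝ, Dense T ∧ ∀ h ∈ T, ∃ c C : ℝ, 0 < c ∧
        (∀ r : ℝ, |r| ≤ 1 → c * r ^ 2 ≤ lam (h + r) - lam h - r * deriv lam h ∧
          lam (h + r) - lam h - r * deriv lam h ≤ C * r ^ 2) ∧
        (∀ᶠ n : ℕ in atTop,
          c * (n * σ h n) ≤
            ∫ x, fE β h (fun p => ω p x) n (fun s => |(walk s n : ℝ) - deriv lam h * n| ^ 2) ∂P ∧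
          ∫ x, fE β h (fun p => ω p x) n (fun s => mxv (deriv lam h) s ^ 2) ∂P ≤ C * (n * σ h n) ∧
          (n : ℝ) ^ (1 / 5 + c) ≤ σ h n ∧ σ h n ≤ (n : ℝ) ^ (1 / 2 - c)) ∧
        (∀ᶠ n : ℕ in atTop, ∀ R : ℝ, 1 ≤ R → 1 - ∫ x, fP β h (fun p => ω p x) n
          {s | mxv (deriv lam h) s ≤ R * Real.sqrt (n * σ h n)} ∂P ≤ C * Real.exp (-(c * R ^ c))) ∧
        (∀ ε : ℝ, 0 < ε → ∃ a : ℝ, 0 < a ∧ ∀ᶠ n : ℕ in atTop, ∫ x, fP β h (fun p => ω p x) n
          {s | |(walk s n : ℝ) - deriv lam h * n| ≤ a * Real.sqrt (n * σ h n)} ∂P ≤ ε) ∧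
        (∀ q : ℕ, ∃ a A : ℝ, 0 < a ∧ ∀ᶠ n : ℕ in atTop,
          a * Real.sqrt (n * σ h n) ^ q ≤
            ∫ x, fE β h (fun p => ω p x) n (fun s => |(walk s n : ℝ) - deriv lam h * n| ^ q) ∂P ∧
          ∫ x, fE β h (fun p => ω p x) n (fun s => mxv (deriv lam h) s ^ q) ∂P ≤ A * Real.sqrt (n * σ h n) ^ q) ∧
        2 * nuF P β h (deriv lam h) ω - 1 = limsup (fun n : ℕ => Real.log (σ h n) / Real.log n) atTop ∧
        chiF P β h ω = liminf (fun n : ℕ => Real.log (σ h n) / Real.log n) atTop ∧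
        1 / 5 + c ≤ chiF P β h ω ∧ chiF P β h ω ≤ 2 * nuF P β h (deriv lam h) ω - 1 ∧
        nuF P β h (deriv lam h) ω ≤ 3 / 4 - c) ∧
      -- almost every force
      (∀ᵐ h : ℝ, ∃ c C : ℝ, 0 < c ∧
        (∀ᶠ n : ℕ in atTop, ∫ x, fE β h (fun p => ω p x) n (fun s => mxv (deriv lam h) s ^ 2) ∂P ≤ C * (n * σ h n)) ∧
        2 * nuF P β h (deriv lam h) ω - 1 ≤ limsup (fun n : ℕ => Real.log (σ h n) / Real.log n) atTop ∧
        1 / 5 + c ≤ chiF P β h ω ∧ nuF P β h (deriv lam h) ω ≤ 3 / 4 - c) ∧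
      -- almost every velocity
      (∀ᵐ v : ℝ, ∀ h : ℝ, deriv lam h = v → ∃ c : ℝ, 0 < c ∧
        (∀ᶠ n : ℕ in atTop, c * (n * σ h n) ≤
          ∫ x, fE β h (fun p => ω p x) n (fun s => |(walk s n : ℝ) - v * n| ^ 2) ∂P) ∧
        chiF P β h ω ≤ 2 * nuF P β h v ω - 1 ∧ 3 / 5 + c ≤ nuF P β h v ω) := by
  obtain ⟨lam, σ, hd, hlim, hrest⟩ := main_K P ω hmeas hindep hident hnc hexp hβ
  exact ⟨lam, σ, hd, Pool.Agent.W_7d29a1_HK20.lim_unique20 P ω hmeas hindep hident hnc hexp hβ hlim, hlim, hrest⟩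

end Pool.Agent.Results.MP_7d29a1_pr.KPZRelation
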