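import Pool.Agent.W_7d29a1_F.MainV
import Pool.Agent.W_7d29a1_h47q.NuH

/-!
# No flat piece: the free energy of the directed polymer in dimension `1 + 1` is differentiable

The definitions are in `Pool/Agent/W_7d29a1_h47/Model.lean` and `Pool/Agent/W_7d29a1_h47q/ModelQ.lean`:
walks of length `n` are step sequences `s : Fin n → Bool` of simple random walk on `ℤ`, `walk s i` is the
position `S_i`, `energy η s` is `∑_{i ≤ n} η (i, S_i)`, `polE β η n` the expectation under the polymer
measure, `endMGF β h η n` the moment generating function of the end point, `endP β η n y` the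
probability `P_n^{β,η}(S_n = y)`, `forceP β h η n` the polymer measure with the force `h`; in
`Pool/Agent/W_7d29a1_F/VlD.lean`: `parZ β h η n` is the partition function
`E exp (h S_n + β ∑_{i=1}^n η (i, S_i))`, for `h = 0` the `Z_n^{β,η}` of the problem; and in
`Pool/Agent/W_MP_7d29a1_pr/Model.lean`: `nu P β ω` is the wandering exponent `ν` of the problem
(there the sites are functions `Fin d → ℤ`, here with `d = 1`).
-/

namespace Pool.Agent.Results.MP_7d29a1_pr.NoFlatPiece

open MeasureTheory ProbabilityTheory Filter Topology Pool.Agent.W_7d29a1_h47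

/-- In dimension `1`, for every i.i.d. site disorder which is not almost surely constant and has all
exponential moments, and for every `β > 0`: the large deviation rate function
`J(v) = - lim n⁻¹ log P_n^{β,ω}(S_n = y_n)`, where `y_n / n → v ∈ (-1, 1)`, exists almost surely and is
strictly convex on `(-1, 1)` (no flat piece); equivalently the free energy
`λ(h) = lim_n n⁻¹ log E_n^{β,ω}(e^{h S_n})` is differentiable at every force `h`, and `J` is its Legendre
transform. Under the polymer measure with the force `h` the path satisfies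
`|S_i - λ'(h) i| ≤ ε n` for all `i ≤ n` with probability at least `1 - e^{-cn}`, `c = c(h, ε) > 0`. For
every `h` the variance of `log Z_n^{β,ω}(h)`, divided by `log n`, tends to infinity. The function `λ` is
strictly convex, even and positive away from `0`, and its second differences with step `u ≤ 1` are
at least `c u ^ 100` with one `c > 0` for all `h` in a bounded set; `J` is differentiable on `(-1, 1)`
(no corners), and its derivative is locally Hölder continuous with exponent `1/99`. The wandering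
exponent `ν` (without force) is at least `101/300`, hence larger than `1/3`. -/
theorem result {Ω : Type*} [MeasurableSpace Ω] (P : Measure Ω) [IsProbabilityMeasure P]
    (ω : ℕ × ℤ → Ω → ℝ) (hmeas : ∀ p, Measurable (ω p)) (hindep : iIndepFun ω P)
    (hident : ∀ p q, IdentDistrib (ω p) (ω q) P P) (hnc : ¬ ∃ c : ℝ, ∀ᵐ x ∂P, ω (0, 0) x = c)
    (hexp : ∀ b : ℝ, Integrable (fun x => Real.exp (b * ω (0, 0) x)) P) {β : ℝ} (hβ : 0 < β) :
    (∃ lam J : ℝ → ℝ, StrictConvexOn ℝ Set.univ lam ∧ Differentiable ℝ lam ∧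
      (∀ h, lam (-h) = lam h) ∧ (∀ h, h ≠ 0 → 0 < lam h) ∧
      (∀ H : ℝ, ∃ c : ℝ, 0 < c ∧ ∀ h, |h| ≤ H → ∀ u : ℝ, 0 < u → u ≤ 1 →
        c * u ^ 100 ≤ lam (h + u) + lam (h - u) - 2 * lam h) ∧
      (∀ h, ∀ᵐ x ∂P, Tendsto (fun n : ℕ => Real.log (endMGF β h (fun p => ω p x) n) / n) atTop
        (𝓝 (lam h))) ∧
      (∀ h, ∀ ε : ℝ, 0 < ε → ∃ c : ℝ, 0 < c ∧ ∀ᵐ x ∂P, ∀ᶠ n : ℕ in atTop,
        1 - Real.exp (-(c * n)) ≤ forceP β h (fun p => ω p x) n
          {s | ∀ i ≤ n, |(walk s i : ℝ) - deriv lam h * i| ≤ ε * n}) ∧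
      (∀ v, |v| < 1 → IsLUB (Set.range fun h => h * v - lam h) (J v)) ∧
      (∀ v, |v| < 1 → ∀ y : ℕ → ℤ, (∀ n, (y n - n) % 2 = 0) →
        Tendsto (fun n : ℕ => (y n : ℝ) / n) atTop (𝓝 v) →
        ∀ᵐ x ∂P, Tendsto (fun n : ℕ => -Real.log (endP β (fun p => ω p x) n (y n)) / n) atTop
          (𝓝 (J v))) ∧
      StrictConvexOn ℝ (Set.Ioo (-1) 1) J ∧
      (∀ v, |v| < 1 → DifferentiableAt ℝ J v) ∧
      ∀ a : ℝ, a < 1 → ∃ C : ℝ, ∀ v w : ℝ, |v| ≤ a → |w| ≤ a →
        |deriv J v - deriv J w| ≤ C * |v - w| ^ (1 / 99 : ℝ)) ∧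
    (∀ h : ℝ, Tendsto (fun n : ℕ => Var[fun x =>
      Real.log (Pool.Agent.W_7d29a1_F.parZ β h (fun p => ω p x) n); P] / Real.log n) atTop atTop) ∧
    101 / 300 ≤ W_MP_7d29a1_pr.nu P β fun p : ℕ × W_MP_7d29a1_pr.Site 1 => ω (p.1, p.2 0) := by
  obtain ⟨h1, h2⟩ := Pool.Agent.W_7d29a1_F.main_FV P ω hmeas hindep hident hnc hexp hβ
  refine ⟨h1, h2, ?_⟩
  refine main_nu P _ (fun p => hmeas _) ?_ (fun p q => hident _ _) ?_ ?_ hβ
  · refine hindep.precomp (g := fun p : ℕ × W_MP_7d29a1_pr.Site 1 => (p.1, p.2 0)) ?_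
    rintro ⟨i, y⟩ ⟨j, z⟩ h
    simp only [Prod.mk.injEq] at h
    refine Prod.ext h.1 (funext fun k => ?_)
    rw [Subsingleton.elim k 0]
    exact h.2
  · rintro p ⟨c, hc⟩
    refine hnc ⟨c, ?_⟩
    have h1 := hident (p.1, p.2 0) (0, 0)
    exact h1.ae_snd (p := fun y => y = c) (measurableSet_singleton c) hc
  · intro b p
    have h1 := ((hident (p.1, p.2 0) (0, 0)).comp
      (show Measurable fun t : ℝ => Real.exp (b * t) by fun_prop)).integrable_iff
    exact h1.2 (hexp b)

end Pool.Agent.Results.MP_7d29a1_pr.NoFlatPiece
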