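import Pool.Agent.W_7d29a1_q.Main
import Pool.Agent.W_7d29a1_q.NuS

/-!
# Directed polymers: the free energy is not flatter than a power, and `ν > 1 / (d + 2)`, for all `d`, all `β > 0`

The definitions are in `Pool/Agent/W_MP_7d29a1_pr/Model.lean` (walks, positions, energies, the polymer measure
`Pol`, the wandering exponent `nu` of the problem) and `Pool/Agent/W_7d29a1_h46/Model.lean` (`Vec d` is `ℝ^d` with
the Euclidean norm, `emb` the inclusion of `ℤ^d`, `wgt`, `ZT` the weights with a tilt, `PolT` the polymer measure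
tilted by `exp ⟨h, S_n⟩`, `tube` the event `max_{i ≤ n} ‖S_i - i v‖ ≤ r`).
-/

namespace Pool.Agent.Results.MP_7d29a1_pr.PowerLaw

open MeasureTheory ProbabilityTheory Filter Topology Pool.Agent.W_MP_7d29a1_pr
  Pool.Agent.W_7d29a1_h46

/-- The expectation `E_n^{β,η} (exp ⟨h, S_n⟩)` under the polymer measure `P_n^{β,η}`. -/
noncomputable def polMGF {d : ℕ} (β : ℝ) (h : Vec d) (η : ℕ × Site d → ℝ) (n : ℕ) : ℝ :=
  (∑ s : Fin n → Step d, Real.exp (inner ℝ h (emb (pos s n))) * Real.exp (β * energy η s)) /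
    ∑ s : Fin n → Step d, Real.exp (β * energy η s)

/-- The site `y` can be reached in `n` steps and its `ℓ¹` norm is at most `r`. -/
def near {d : ℕ} (n : ℕ) (r : ℝ) (y : Site d) : Prop :=
  ((∑ j, (y j).natAbs : ℕ) : ℝ) ≤ r ∧ (∑ j, (y j).natAbs) ≤ n ∧ (∑ j, (y j).natAbs + n) % 2 = 0

/-- In every dimension `d ≥ 1` there is `κ > 0`, which depends on `d` only, such that for every i.i.d. site
disorder which is not almost surely constant and has all exponential moments, and every `β > 0`: the wandering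
exponent is at least `1 / (d + 2) + κ`; the limit `λ(h)` of `n⁻¹ log E_n^{β,ω} (exp ⟨h, S_n⟩)` exists almost
surely, it is convex, at least `c ‖h‖ ^ (1 / κ)` for `‖h‖ ≤ 1`, and not affine on any nonempty open set; under the
polymer measure tilted by `exp ⟨h, S_n⟩` one has `⟨h, S_n⟩ ≥ c n` with probability tending to `1` for all
`c < λ(h)`; the probabilities `P_n^{β,ω}(S_n = y)` are at least `exp (-C δ ^ (1 + κ) n)` for all sites `y` at
distance at most `δ n`; and no tube of radius `K n ^ (1 / (d + 2))` around a line is typical, for any tilt. -/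
theorem result {d : ℕ} (hd : 1 ≤ d) : ∃ κ : ℝ, 0 < κ ∧
    ∀ {Ω : Type*} [MeasurableSpace Ω] (μ : Measure Ω) [IsProbabilityMeasure μ]
      (ω : ℕ × Site d → Ω → ℝ), (∀ p, Measurable (ω p)) → iIndepFun ω μ →
      (∀ p q, IdentDistrib (ω p) (ω q) μ μ) → (∀ p, ¬ ∃ c : ℝ, ∀ᵐ x ∂μ, ω p x = c) →
      (∀ (b : ℝ) p, Integrable (fun x => Real.exp (b * ω p x)) μ) → ∀ {β : ℝ}, 0 < β →
      1 / ((d : ℝ) + 2) + κ ≤ nu μ β ω ∧
      (∃ L : Vec d → ℝ,
        (∀ h, ∀ᵐ x ∂μ, Tendsto (fun n : ℕ => Real.log (polMGF β h (fun p => ω p x) n) / n) atTop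
          (𝓝 (L h))) ∧
        ConvexOn ℝ Set.univ L ∧
        (∃ c : ℝ, 0 < c ∧ ∀ h, ‖h‖ ≤ 1 → c * ‖h‖ ^ (1 / κ) ≤ L h) ∧
        (∀ U : Set (Vec d), IsOpen U → U.Nonempty → ∀ (v : Vec d) (c : ℝ),
          ∃ h ∈ U, L h ≠ c + inner ℝ h v) ∧
        (∀ h, ∀ c < L h, ∀ᵐ x ∂μ, Tendsto (fun n : ℕ => PolT β h (fun p => ω p x)
          {s : Fin n → Step d | c * n ≤ inner ℝ h (emb (pos s n))}) atTop (𝓝 1)) ∧
        (∃ C δ0 : ℝ, 0 < C ∧ 0 < δ0 ∧ ∀ δ > 0, δ ≤ δ0 → ∀ᵐ x ∂μ, ∀ᶠ n : ℕ in atTop, ∀ y : Site d,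
          near n (δ * n) y → Real.exp (-(C * δ ^ (1 + κ) * n)) ≤
            Pol β (fun p => ω p x) n {s : Fin n → Step d | pos s n = y})) ∧
      ∀ (h v : Vec d) (K : ℝ), ∫ x, liminf (fun n : ℕ => PolT β h (fun p => ω p x)
        (tube d n v (K * (n : ℝ) ^ (1 / ((d : ℝ) + 2))))) atTop ∂μ < 1 :=
  W_7d29a1_q.final_all_of hd (W_7d29a1_q.hyp_false ⟨0, hd⟩)

end Pool.Agent.Results.MP_7d29a1_pr.PowerLaw
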