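import Pool.Agent.W_7d29a1_HM.Final

/-!
# The scaling law of directed polymers in dimension `1 + 1` at every force

The definitions are in `Pool/Agent/W_7d29a1_h47/Model.lean`, `Pool/Agent/W_7d29a1_h47q/ModelQ.lean` and
`Pool/Agent/W_7d29a1_HM/ModelH.lean`: walks of length `n` are step sequences `s : Fin n → Bool` of simple random walk on `ℤ`,
`walk s i` is the position `S_i`, `energy η s` is `∑_{i=1}^n η (i, S_i)`; for a force `h`, `fZ β h η n` is the partition function
`Z_n(h) = E exp (h S_n + β ∑_{i=1}^n η (i, S_i))`, `fE β h η n` the expectation and `fP β h η n` the probability under the polymer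
measure with the force `h` (the polymer measure of the problem tilted by `e ^ (h S_n)`), `mxv v s` the maximum
`max_{i ≤ n} |S_i - v i|`, `endP β η n y` the probability that the polymer of the problem (`h = 0`) ends at `y`; `nuF P β h v ω` and
`chiF P β h ω` are the exponents `ν` and `χ` of the problem (dimension `1`) for the polymer measure with the force `h`, the path
`S_i - v i` and `log Z_n(h)`; for `h = v = 0` they are `ν` and `χ`.
-/

namespace Pool.Agent.Results.MP_7d29a1_pr.ScalingLaw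

open MeasureTheory ProbabilityTheory Filter Topology
open Pool.Agent.W_7d29a1_h47 (walk endP)
open Pool.Agent.W_7d29a1_HM

/-- **The scaling law in dimension `1 + 1`, at every force.** For every i.i.d. site disorder on `ℕ × ℤ` which is not almost
surely constant and has all exponential moments, for every `β > 0` and EVERY force `h` (`h = 0` is the polymer of the problem,
with velocity `0`): let `v = λ'(h)` be the velocity, `I` the rate function of the end point around `v`, `σ_n` the standard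
deviation of `log Z_n(h)`, and let the width `w_n` be given by `n I (w_n / n) = σ_n`. Then the path of length `n` fluctuates around
the line of velocity `v` exactly at the scale `w_n` (stretched exponential tails above; the end point is spread at the scale
`w_n`; all moments are of the order `w_n ^ q`), `log Z_n(h)` fluctuates exactly at the scale `σ_n` (stretched exponential upper and
lower bounds for both tails), the non random fluctuation `n F(h) - E log Z_n(h)` is of the order `σ_n`, the gap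
`E log Z_{2n}(h) - 2 E log Z_n(h)` is at least of the order `σ_n`; the scales and the rate function are regular, `σ_n` grows with a power strictly
below `1 / 2` and `w_n σ_n ^ 2` with a power strictly above `1` (both from every length `m` to every length `n`), and
`n ^ c ≤ σ_n ≤ n ^ (1 / 2 - c)`, `n ^ (1 / 3 + c) ≤ w_n ≤ n ^ (1 - c)`. For the exponents this gives `1 / 3 < ν_h < 1`,
`0 < χ_h < 1 / 2`, `1 < 2 χ_h + ν_h`, and if `I (u) = u ^ (κ + o(1))` as `u → 0+`, then
`limsup log σ_n / log n = 1 - κ (1 - ν_h)` and `χ_h = 1 - κ (1 - liminf log w_n / log n)`. -/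
theorem result {Ω : Type*} [MeasurableSpace Ω] (P : Measure Ω) [IsProbabilityMeasure P]
    (ω : ℕ × ℤ → Ω → ℝ) (hmeas : ∀ p, Measurable (ω p)) (hindep : iIndepFun ω P)
    (hident : ∀ p q, IdentDistrib (ω p) (ω q) P P) (hnc : ¬ ∃ c : ℝ, ∀ᵐ x ∂P, ω (0, 0) x = c)
    (hexp : ∀ b : ℝ, Integrable (fun x => Real.exp (b * ω (0, 0) x)) P) {β : ℝ} (hβ : 0 < β) :
    ∃ (lam J : ℝ → ℝ) (F : ℝ), Differentiable ℝ lam ∧ lam 0 = 0 ∧ deriv lam 0 = 0 ∧
      -- the free energy and the rate function of the end point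
      (∀ h, ∀ᵐ x ∂P, Tendsto (fun n : ℕ => Real.log (fZ β h (fun p => ω p x) n) / n) atTop (𝓝 (F + lam h))) ∧
      (∀ v, |v| < 1 → ∀ y : ℕ → ℤ, (∀ n, (y n - n) % 2 = 0) → Tendsto (fun n : ℕ => (y n : ℝ) / n) atTop (𝓝 v) →
        ∀ᵐ x ∂P, Tendsto (fun n : ℕ => -Real.log (endP β (fun p => ω p x) n (y n)) / n) atTop (𝓝 (J v))) ∧
      (∀ v, |v| < 1 → IsLUB (Set.range fun h => h * v - lam h) (J v)) ∧
      ∀ h : ℝ, ∃ (v : ℝ) (I : ℝ → ℝ) (σ w : ℕ → ℝ) (c C : ℝ) (n₁ : ℕ), 0 < c ∧ v = deriv lam h ∧ |v| < 1 ∧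
        -- the rate function around the velocity `v`
        (∀ u, I u = J (v + u) - J v - h * u) ∧
        (∀ u, |u| < 1 → |v + u| < 1 → c * |u| ^ C ≤ I u) ∧
        (∀ u, |u| ≤ c → I u ≤ C * |u| ^ (1 + c) ∧ I (-u) ≤ C * I u) ∧
        (∀ u R : ℝ, 1 ≤ R → |R * u| ≤ c → c * R ^ (1 + c) * I u ≤ I (R * u) ∧ I (R * u) ≤ C * R ^ C * I u) ∧
        (∀ k, |k| ≤ c → lam (h + k) - lam h - k * v ≤ C * |k| ^ (1 + c)) ∧
        -- the standard deviation and the width
        (∀ n, σ n = Real.sqrt (Var[fun x => Real.log (fZ β h (fun p => ω p x) n); P])) ∧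
        (∀ n, w n = sSup {r : ℝ | 0 ≤ r ∧ r < (1 - |v|) * n ∧ n * I (r / n) ≤ σ n}) ∧
        (∀ᶠ n : ℕ in atTop, (n : ℝ) ^ c ≤ σ n ∧ σ n ≤ (n : ℝ) ^ (1 / 2 - c) ∧
          (n : ℝ) ^ (1 / 3 + c) ≤ w n ∧ w n ≤ (n : ℝ) ^ (1 - c) ∧
          n * I (w n / n) = σ n ∧ (n : ℝ) ^ (1 + c) ≤ w n * σ n ^ 2 ∧ (n : ℝ) ^ c * σ n ≤ w n ∧
          c * σ n ≤ n * (F + lam h) - ∫ x, Real.log (fZ β h (fun p => ω p x) n) ∂P ∧
          n * (F + lam h) - ∫ x, Real.log (fZ β h (fun p => ω p x) n) ∂P ≤ C * σ n ∧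
          c * σ n ≤ ∫ x, Real.log (fZ β h (fun p => ω p x) (2 * n)) ∂P -
            2 * ∫ x, Real.log (fZ β h (fun p => ω p x) n) ∂P) ∧
        (∀ m n : ℕ, n₁ ≤ m → m ≤ n →
          c * ((n : ℝ) / m) ^ c * σ m ≤ σ n ∧ σ n ≤ C * ((n : ℝ) / m) ^ (1 / 2 - c) * σ m ∧
          c * ((n : ℝ) / m) ^ c * w m ≤ w n ∧ w n ≤ C * ((n : ℝ) / m) ^ (1 - c) * w m ∧
          c * ((n : ℝ) / m) ^ (1 + c) * (w m * σ m ^ 2) ≤ w n * σ n ^ 2) ∧
        -- the fluctuations of the free energy
        (∀ᶠ n : ℕ in atTop, ∀ s : ℝ, 0 ≤ s →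
          P.real {x | s * σ n ≤ |Real.log (fZ β h (fun p => ω p x) n) - ∫ y, Real.log (fZ β h (fun p => ω p y) n) ∂P|} ≤
            C * Real.exp (-(c * s ^ c))) ∧
        (∀ᶠ n : ℕ in atTop, ∀ s : ℝ, 1 ≤ s → s ≤ (n : ℝ) ^ c →
          Real.exp (-(C * s ^ C)) ≤ P.real {x | s * σ n ≤
            Real.log (fZ β h (fun p => ω p x) n) - ∫ y, Real.log (fZ β h (fun p => ω p y) n) ∂P} ∧
          Real.exp (-(C * s ^ C)) ≤ P.real {x | Real.log (fZ β h (fun p => ω p x) n) -
            ∫ y, Real.log (fZ β h (fun p => ω p y) n) ∂P ≤ -(s * σ n)}) ∧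
        -- the fluctuations of the path around the line of velocity `v`
        (∀ᶠ n : ℕ in atTop, ∀ R : ℝ, 1 ≤ R →
          1 - ∫ x, fP β h (fun p => ω p x) n {s | mxv v s ≤ R * w n} ∂P ≤ C * Real.exp (-(c * R ^ c))) ∧
        (∀ ε : ℝ, 0 < ε → ∃ a : ℝ, 0 < a ∧ ∀ᶠ n : ℕ in atTop,
          ∫ x, fP β h (fun p => ω p x) n {s | |(walk s n : ℝ) - v * n| ≤ a * w n} ∂P ≤ ε) ∧
        (∀ q : ℕ, ∃ a A : ℝ, 0 < a ∧ ∀ᶠ n : ℕ in atTop,
          a * w n ^ q ≤ ∫ x, fE β h (fun p => ω p x) n (fun s => |(walk s n : ℝ) - v * n| ^ q) ∂P ∧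
          ∫ x, fE β h (fun p => ω p x) n (fun s => mxv v s ^ q) ∂P ≤ A * w n ^ q) ∧
        -- the exponents
        nuF P β h v ω = limsup (fun n : ℕ => Real.log (w n) / Real.log n) atTop ∧
        chiF P β h ω = liminf (fun n : ℕ => Real.log (σ n) / Real.log n) atTop ∧
        1 / 3 + c ≤ liminf (fun n : ℕ => Real.log (w n) / Real.log n) atTop ∧
        liminf (fun n : ℕ => Real.log (w n) / Real.log n) atTop ≤ nuF P β h v ω ∧ nuF P β h v ω ≤ 1 - c ∧
        c ≤ chiF P β h ω ∧ chiF P β h ω ≤ limsup (fun n : ℕ => Real.log (σ n) / Real.log n) atTop ∧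
        limsup (fun n : ℕ => Real.log (σ n) / Real.log n) atTop ≤ 1 / 2 - c ∧
        1 + c ≤ 2 * chiF P β h ω + nuF P β h v ω ∧
        1 + c ≤ 2 * limsup (fun n : ℕ => Real.log (σ n) / Real.log n) atTop +
          liminf (fun n : ℕ => Real.log (w n) / Real.log n) atTop ∧
        ∀ κ : ℝ, Tendsto (fun u : ℝ => Real.log (I u) / Real.log u) (𝓝[>] 0) (𝓝 κ) →
          limsup (fun n : ℕ => Real.log (σ n) / Real.log n) atTop = 1 - κ * (1 - nuF P β h v ω) ∧
          chiF P β h ω = 1 - κ * (1 - liminf (fun n : ℕ => Real.log (w n) / Real.log n) atTop) ∧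
          (2 * κ - 1 + c) / (2 * κ + 1) ≤ liminf (fun n : ℕ => Real.log (w n) / Real.log n) atTop ∧
          nuF P β h v ω ≤ 1 - (1 / 2 + c) / κ :=
  main_F P ω hmeas hindep hident hnc hexp hβ

end Pool.Agent.Results.MP_7d29a1_pr.ScalingLaw
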