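import Pool.Agent.W_7d29a1_LB.All29
import Pool.Agent.W_7d29a1_C0.HandA29
import Pool.Agent.W_7d29a1_C0.CvlG33

/-!
# The scaling exponents of directed polymers in dimension `1 + 1` under a force

The definitions are in `Pool/Agent/W_7d29a1_h47/Model.lean`, `Pool/Agent/W_7d29a1_h47q/ModelQ.lean` and
`Pool/Agent/W_7d29a1_HM/ModelH.lean`: walks of length `n` are step sequences `s : Fin n → Bool` of simple random walk on `ℤ`,
`walk s i` is the position `S_i`, `energy η s` is `∑_{i=1}^n η (i, S_i)`; for a force `h`, `fZ β h η n` is the partition function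
`Z_n(h) = E exp (h S_n + β ∑_{i=1}^n η (i, S_i))`, `fE β h η n` the expectation and `fP β h η n` the probability under the polymer
measure with the force `h` (the polymer measure of the problem tilted by `e ^ (h S_n)`), `endMGF β h η n` the moment generating
function `E_n e ^ (h S_n)`, `mxv v s` the maximum `max_{i ≤ n} |S_i - v i|`; `nuF P β h v ω` and `chiF P β h ω` are the exponents
`ν` and `χ` of the problem (dimension `1`) for the polymer measure with the force `h`, the path `S_i - v i` and `log Z_n(h)`; for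
`h = v = 0` they are `ν` and `χ`.
-/

namespace Pool.Agent.Results.MP_7d29a1_pr.WanderingExponent

open MeasureTheory ProbabilityTheory Filter Topology
open Pool.Agent.W_7d29a1_h47 (walk endMGF)
open Pool.Agent.W_7d29a1_HM

/-- **The exponents of the directed polymer in dimension `1 + 1` under a force.** For every i.i.d. site disorder on `ℕ × ℤ` which is
not almost surely constant and has all exponential moments, and for every `β > 0`, let `λ` be the free energy under a force,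
`σ_n(h)` the standard deviation of `log Z_n(h)`, and `v = λ'(h)` the velocity; the velocities fill `(-1, 1)`, `λ'(0) = 0`.
If the law of the disorder has a density `exp (-V)` with `V'` Lipschitz (the gaussian law is an example), then for EVERY force `h`
(`h = 0` is the polymer of the problem) `ν_h ≥ 2 / 3`, and `σ_n ≥ n ^ (1 / 3 - ε)` for infinitely many `n`. For all laws and EVERY
force the path fluctuates around the line of velocity `v` exactly at the scale `Var log Z_n(h) ^ (1 + o(1))` (all moments of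
`|S_n - n v|` and of `max |S_i - i v|`), so `ν_h = 2 limsup log σ_n / log n`, `χ_h = liminf log σ_n / log n`, `χ_h ≤ ν_h / 2`;
`n ^ (1 / 4 + c) ≤ σ_n ≤ n ^ (1 / 2 - c)`, `1 / 4 < χ_h`, `1 / 2 < ν_h < 1`; and if the rate function `J` of the end point has at `v`
the exponent `κ`, then `log σ_n / log n → (κ - 1) / (2 κ - 1)` and `ν_h = 2 χ_h = (2 κ - 2) / (2 κ - 1)`. There is a dense set of
forces `h` at which `λ` is quadratic (`κ = 2`), `ν_h = 2 / 3` and `χ_h = 1 / 3`, and at which the path fluctuates exactly at the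
scale `√(n σ_n)` (all moments, stretched exponential tails, the end point is spread). For Lebesgue almost every force
`ν_h ≤ 2 / 3`, `χ_h ≤ 1 / 3`; for almost every velocity in `(-1, 1)` `ν_h ≥ 2 / 3`, `χ_h ≥ 1 / 3`. -/
theorem result {Ω : Type*} [MeasurableSpace Ω] (P : Measure Ω) [IsProbabilityMeasure P]
    (ω : ℕ × ℤ → Ω → ℝ) (hmeas : ∀ p, Measurable (ω p)) (hindep : iIndepFun ω P)
    (hident : ∀ p q, IdentDistrib (ω p) (ω q) P P) (hnc : ¬ ∃ c : ℝ, ∀ᵐ x ∂P, ω (0, 0) x = c)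
    (hexp : ∀ b : ℝ, Integrable (fun x => Real.exp (b * ω (0, 0) x)) P) {β : ℝ} (hβ : 0 < β) :
    ∃ (lam J : ℝ → ℝ) (σ : ℝ → ℕ → ℝ), Differentiable ℝ lam ∧ deriv lam 0 = 0 ∧ Set.range (deriv lam) = Set.Ioo (-1) 1 ∧
      (∀ h, ∀ᵐ x ∂P, Tendsto (fun n : ℕ => Real.log (endMGF β h (fun p => ω p x) n) / n) atTop (𝓝 (lam h))) ∧
      (∀ v, |v| < 1 → IsLUB (Set.range fun k => k * v - lam k) (J v)) ∧
      (∀ h n, σ h n = Real.sqrt (Var[fun x => Real.log (fZ β h (fun p => ω p x) n); P])) ∧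
      -- every force, the law of the disorder has a density `exp (-V)` with `V'` Lipschitz
      ((∃ (V V' : ℝ → ℝ) (L : ℝ), (∀ x, HasDerivAt V (V' x) x) ∧ (∀ x y, |V' x - V' y| ≤ L * |x - y|) ∧
        P.map (ω (0, 0)) = volume.withDensity fun x => ENNReal.ofReal (Real.exp (-V x))) →
        ∀ h : ℝ, (∀ ε : ℝ, 0 < ε → ∃ᶠ n : ℕ in atTop, (n : ℝ) ^ (1 / 3 - ε) ≤ σ h n) ∧ 2 / 3 ≤ nuF P β h (deriv lam h) ω) ∧
      -- every force
      (∀ h : ℝ,
        (∀ (q : ℕ) (ε : ℝ), 0 < ε → ∀ᶠ n : ℕ in atTop,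
          (n : ℝ) ^ (-ε) * σ h n ^ (2 * q) ≤
            ∫ x, fE β h (fun p => ω p x) n (fun s => |(walk s n : ℝ) - deriv lam h * n| ^ q) ∂P ∧
          ∫ x, fE β h (fun p => ω p x) n (fun s => |(walk s n : ℝ) - deriv lam h * n| ^ q) ∂P ≤
            ∫ x, fE β h (fun p => ω p x) n (fun s => mxv (deriv lam h) s ^ q) ∂P ∧
          ∫ x, fE β h (fun p => ω p x) n (fun s => mxv (deriv lam h) s ^ q) ∂P ≤ (n : ℝ) ^ ε * σ h n ^ (2 * q)) ∧
        nuF P β h (deriv lam h) ω = 2 * limsup (fun n : ℕ => Real.log (σ h n) / Real.log n) atTop ∧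
        chiF P β h ω = liminf (fun n : ℕ => Real.log (σ h n) / Real.log n) atTop ∧
        (∃ c : ℝ, 0 < c ∧ (∀ᶠ n : ℕ in atTop, (n : ℝ) ^ (1 / 4 + c) ≤ σ h n ∧ σ h n ≤ (n : ℝ) ^ (1 / 2 - c)) ∧
          1 / 4 + c ≤ chiF P β h ω ∧ chiF P β h ω ≤ nuF P β h (deriv lam h) ω / 2 ∧
          nuF P β h (deriv lam h) ω ≤ 1 - c) ∧
        (∀ κ : ℝ, Tendsto (fun u : ℝ => Real.log (J (deriv lam h + u) - J (deriv lam h) - h * u) / Real.log u) (𝓝[>] 0)
          (𝓝 κ) →
          Tendsto (fun n : ℕ => Real.log (σ h n) / Real.log n) atTop (𝓝 ((κ - 1) / (2 * κ - 1))) ∧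
          nuF P β h (deriv lam h) ω = (2 * κ - 2) / (2 * κ - 1) ∧ chiF P β h ω = (κ - 1) / (2 * κ - 1))) ∧
      -- a dense set of forces
      (∃ T : Set ℝ, Dense T ∧ ∀ h ∈ T,
        nuF P β h (deriv lam h) ω = 2 / 3 ∧ chiF P β h ω = 1 / 3 ∧
        Tendsto (fun n : ℕ => Real.log (σ h n) / Real.log n) atTop (𝓝 (1 / 3)) ∧
        ∃ c C : ℝ, 0 < c ∧
        (∀ r : ℝ, |r| ≤ 1 → c * r ^ 2 ≤ lam (h + r) - lam h - r * deriv lam h ∧
          lam (h + r) - lam h - r * deriv lam h ≤ C * r ^ 2) ∧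
        (∀ᶠ n : ℕ in atTop,
          c * (n * σ h n) ≤
            ∫ x, fE β h (fun p => ω p x) n (fun s => |(walk s n : ℝ) - deriv lam h * n| ^ 2) ∂P ∧
          ∫ x, fE β h (fun p => ω p x) n (fun s => mxv (deriv lam h) s ^ 2) ∂P ≤ C * (n * σ h n)) ∧
        (∀ᶠ n : ℕ in atTop, ∀ R : ℝ, 1 ≤ R → 1 - ∫ x, fP β h (fun p => ω p x) n
          {s | mxv (deriv lam h) s ≤ R * Real.sqrt (n * σ h n)} ∂P ≤ C * Real.exp (-(c * R ^ c))) ∧
        (∀ ε : ℝ, 0 < ε → ∃ a : ℝ, 0 < a ∧ ∀ᶠ n : ℕ in atTop, ∫ x, fP β h (fun p => ω p x) n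
          {s | |(walk s n : ℝ) - deriv lam h * n| ≤ a * Real.sqrt (n * σ h n)} ∂P ≤ ε) ∧
        (∀ q : ℕ, ∃ a A : ℝ, 0 < a ∧ ∀ᶠ n : ℕ in atTop,
          a * Real.sqrt (n * σ h n) ^ q ≤
            ∫ x, fE β h (fun p => ω p x) n (fun s => |(walk s n : ℝ) - deriv lam h * n| ^ q) ∂P ∧
          ∫ x, fE β h (fun p => ω p x) n (fun s => mxv (deriv lam h) s ^ q) ∂P ≤ A * Real.sqrt (n * σ h n) ^ q)) ∧
      -- almost every force
      (∀ᵐ h : ℝ, nuF P β h (deriv lam h) ω ≤ 2 / 3 ∧ chiF P β h ω ≤ 1 / 3 ∧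
        limsup (fun n : ℕ => Real.log (σ h n) / Real.log n) atTop ≤ 1 / 3 ∧
        ∃ C : ℝ, ∀ᶠ n : ℕ in atTop,
          ∫ x, fE β h (fun p => ω p x) n (fun s => mxv (deriv lam h) s ^ 2) ∂P ≤ C * (n * σ h n)) ∧
      -- almost every velocity
      (∀ᵐ v : ℝ, ∀ h : ℝ, deriv lam h = v → 2 / 3 ≤ nuF P β h v ω ∧ 1 / 3 ≤ chiF P β h ω ∧
        ∃ c : ℝ, 0 < c ∧ ∀ᶠ n : ℕ in atTop, c * (n * σ h n) ≤
          ∫ x, fE β h (fun p => ω p x) n (fun s => |(walk s n : ℝ) - v * n| ^ 2) ∂P) :=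
  Pool.Agent.W_7d29a1_LB.main_H29 (fun _ _ hμ hnd s => Pool.Agent.W_7d29a1_LB.lb_all hμ hnd s)
    (fun _ _ hμ hnd s => Pool.Agent.W_7d29a1_LB.ub_all29 hμ hnd s)
    (fun _ _ hμ hnd hK s => Pool.Agent.W_7d29a1_C0.Lst33.cvl_glaw _ hμ hnd hK s)
    P ω hmeas hindep hident hnc hexp hβ

end Pool.Agent.Results.MP_7d29a1_pr.WanderingExponent
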